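import Pool.Agent.H95.CMC.Targets
import Pool.Agent.H42.FM.GML

/-!
# MP_52e316_nt, board `cm4_modules`: row F_GMN, the lower bound for the Gamma factor
-/

set_option autoImplicit false

open MeasureTheory Set Filter NumberField
open scoped Real
open Pool.Agent.H65.CM4 Pool.Agent.H65.CMC Pool.Agent.H95.CMC
open Pool.Agent.H61.GLH Pool.Agent.H23.GLH

namespace Pool.Agent.H78.CMC

/-- comparison of the Gamma function with its value on the critical line -/
theorem Gamma_cmp (s : ℂ) (hs : |s.re - 1 / 2| ≤ 1 / 8) (M : ℕ) :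
    ‖Complex.Gamma (1 / 2 + (M : ℂ) + s.im * Complex.I)‖ ≤
      2 * G0 ^ 2 * (1 + |s.im|) * (M + 1) * ‖Complex.Gamma (s + M)‖ := by
  have hG := G0_pos
  have ht := abs_nonneg s.im
  obtain ⟨h1, h2⟩ := abs_le.1 hs
  induction M with
  | zero =>
    have h3 := norm_Gamma_strip (1 / 2) s.im (by norm_num) (by norm_num)
    have h4 := Pool.Agent.H42.FM.Gamma_low s hs
    rw [sub_self, Real.rpow_zero, mul_one] at h3
    have e : ((1 / 2 : ℝ) : ℂ) + (s.im : ℂ) * Complex.I =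
        1 / 2 + ((0 : ℕ) : ℂ) + s.im * Complex.I := by push_cast; ring
    rw [e] at h3
    refine h3.trans ?_
    have h7 : 4 * Real.sqrt (2 * Real.pi) * Real.exp (9 / 4) = G0 := rfl
    have h5 : G0 * Real.exp (-(π * |s.im| / 2)) ≤ G0 * (2 * G0 * (1 + |s.im|) *
      ‖Complex.Gamma s‖) := by gcongr
    push_cast
    rw [add_zero]
    refine h5.trans (le_of_eq ?_)
    ring
  | succ M ih =>
    have hw1 : (1 / 2 + (M : ℂ) + s.im * Complex.I) ≠ 0 := by
      intro h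
      have := congrArg Complex.re h
      simp at this
      have hM : (0 : ℝ) ≤ M := Nat.cast_nonneg M
      linarith
    have hw2 : s + (M : ℂ) ≠ 0 := by
      intro h
      have := congrArg Complex.re h
      simp at this
      have hM : (0 : ℝ) ≤ M := Nat.cast_nonneg M
      linarith
    have e1 : (1 / 2 + ((M + 1 : ℕ) : ℂ) + s.im * Complex.I) =
        (1 / 2 + (M : ℂ) + s.im * Complex.I) + 1 := by push_cast; ring
    have e2 : s + ((M + 1 : ℕ) : ℂ) = (s + M) + 1 := by push_cast; ring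
    rw [e1, e2, Complex.Gamma_add_one _ hw1, Complex.Gamma_add_one _ hw2, norm_mul, norm_mul]
    have hM : (0 : ℝ) ≤ M := Nat.cast_nonneg M
    have hd : ‖(1 / 2 + (M : ℂ) + s.im * Complex.I)‖ ≤ ‖s + (M : ℂ)‖ + 1 / 8 := by
      have h3 : (1 / 2 + (M : ℂ) + s.im * Complex.I) = (s + M) + ((1 / 2 - s.re : ℝ) : ℂ) := by
        apply Complex.ext <;> simp <;> ring
      rw [h3]
      refine (norm_add_le _ _).trans ?_
      rw [Complex.norm_real, Real.norm_eq_abs, abs_sub_comm]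
      linarith
    have hl : (M : ℝ) + 1 / 2 ≤ ‖(1 / 2 + (M : ℂ) + s.im * Complex.I)‖ := by
      have h3 := Complex.re_le_norm (1 / 2 + (M : ℂ) + s.im * Complex.I)
      simp at h3
      linarith
    have hk : ‖(1 / 2 + (M : ℂ) + s.im * Complex.I)‖ * (M + 1) ≤ ‖s + (M : ℂ)‖ * (M + 1 + 1) := by
      nlinarith
    set w := ‖(1 / 2 + (M : ℂ) + s.im * Complex.I)‖ with hw
    have hw0 : 0 ≤ w := norm_nonneg _
    have hg0 := norm_nonneg (Complex.Gamma (s + M))
    push_cast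
    calc w * ‖Complex.Gamma (1 / 2 + (M : ℂ) + s.im * Complex.I)‖
        ≤ w * (2 * G0 ^ 2 * (1 + |s.im|) * (M + 1) * ‖Complex.Gamma (s + M)‖) :=
          mul_le_mul_of_nonneg_left ih hw0
      _ = (w * (M + 1)) * (2 * G0 ^ 2 * (1 + |s.im|) * ‖Complex.Gamma (s + M)‖) := by ring
      _ ≤ (‖s + (M : ℂ)‖ * (M + 1 + 1)) *
          (2 * G0 ^ 2 * (1 + |s.im|) * ‖Complex.Gamma (s + M)‖) :=
          mul_le_mul_of_nonneg_right hk (by positivity)
      _ = _ := by ring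

/-- the factor of one place -/
theorem gg_low (s : ℂ) (hs : |s.re - 1 / 2| ≤ 1 / 8) (m : ℤ) :
    ‖Complex.Gamma (1 / 2 + ((|m| : ℤ) : ℂ) + s.im * Complex.I)‖ ≤
      2 * G0 ^ 2 * ((64 / 9) * (2 * π)) * (1 + |s.im|) * (1 + |(m : ℝ)|) * ‖gg m s‖ := by
  have hπ := Real.pi_pos
  have hG := G0_pos
  have ht := abs_nonneg s.im
  obtain ⟨h1, h2⟩ := abs_le.1 hs
  have hc := Gamma_cmp s hs m.natAbs
  have e : ((|m| : ℤ) : ℂ) = (m.natAbs : ℂ) := by
    rw [Int.abs_eq_natAbs, Int.cast_natCast]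
  have er : |(m : ℝ)| = (m.natAbs : ℝ) := by
    rw [← Int.cast_abs, Int.abs_eq_natAbs, Int.cast_natCast]
  have hs1 : 3 / 8 ≤ ‖s‖ := by
    have h3 := Complex.abs_re_le_norm s
    have h4 := le_abs_self s.re
    linarith
  have hs2 : 3 / 8 ≤ ‖s - 1‖ := by
    have h3 := Complex.abs_re_le_norm (s - 1)
    rw [Complex.sub_re, Complex.one_re] at h3
    have h4 := neg_abs_le (s.re - 1)
    linarith
  have hp : (2 * π)⁻¹ ≤ ‖(2 * (π : ℂ)) ^ (-s)‖ := by
    have e : (2 * (π : ℂ)) = ((2 * π : ℝ) : ℂ) := by push_cast; ring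
    rw [e, Complex.norm_cpow_eq_rpow_re_of_pos (by positivity), Complex.neg_re,
      ← Real.rpow_neg_one]
    refine Real.rpow_le_rpow_of_exponent_le ?_ (by linarith)
    have := Real.pi_gt_three
    linarith
  have hg : ‖gg m s‖ = ‖s‖ * ‖s - 1‖ * ‖Complex.Gamma (s + m.natAbs)‖ *
      ‖(2 * (π : ℂ)) ^ (-s)‖ := by
    unfold gg
    rw [norm_mul, norm_mul, norm_mul, e]
  have h5 : (3 / 8) * (3 / 8) * ‖Complex.Gamma (s + m.natAbs)‖ * (2 * π)⁻¹ ≤ ‖gg m s‖ := by
    rw [hg]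
    gcongr
  have h6 : ‖Complex.Gamma (s + m.natAbs)‖ ≤ (64 / 9) * (2 * π) * ‖gg m s‖ := by
    have h7 : (64 / 9) * (2 * π) * ((3 / 8) * (3 / 8) * ‖Complex.Gamma (s + m.natAbs)‖ *
        (2 * π)⁻¹) = ‖Complex.Gamma (s + m.natAbs)‖ := by
      field_simp
      ring
    calc ‖Complex.Gamma (s + m.natAbs)‖ = (64 / 9) * (2 * π) * ((3 / 8) * (3 / 8) *
          ‖Complex.Gamma (s + m.natAbs)‖ * (2 * π)⁻¹) := h7.symm
      _ ≤ _ := by gcongr
  rw [e, er]
  refine hc.trans ?_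
  calc 2 * G0 ^ 2 * (1 + |s.im|) * (m.natAbs + 1) * ‖Complex.Gamma (s + m.natAbs)‖
      ≤ 2 * G0 ^ 2 * (1 + |s.im|) * (m.natAbs + 1) * ((64 / 9) * (2 * π) * ‖gg m s‖) := by
        gcongr
    _ = _ := by ring

theorem pf_GMN : T_GMN := by
  intro k _ _ _
  have hπ := Real.pi_pos
  have hG := G0_pos
  refine ⟨(2 * G0 ^ 2 * ((64 / 9) * (2 * π))) ^ Fintype.card (Pl k),
    2 * Fintype.card (Pl k), by positivity, fun m s hs => ?_⟩
  have ht := abs_nonneg s.im
  have hms : ∀ v : Pl k, |(m v : ℝ)| ≤ ms m := by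
    intro v
    exact Finset.single_le_sum (f := fun v => |(m v : ℝ)|) (fun _ _ => abs_nonneg _)
      (Finset.mem_univ v)
  have hms0 : 0 ≤ ms m := Finset.sum_nonneg fun v _ => abs_nonneg _
  unfold cG GM
  rw [norm_prod]
  calc ∏ v : Pl k, ‖Complex.Gamma (1 / 2 + ((|m v| : ℤ) : ℂ) + s.im * Complex.I)‖
      ≤ ∏ v : Pl k, (2 * G0 ^ 2 * ((64 / 9) * (2 * π)) * (1 + |s.im| + ms m) ^ 2 *
          ‖gg (m v) s‖) := by
        refine Finset.prod_le_prod (fun v _ => norm_nonneg _) fun v _ => ?_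
        refine (gg_low s hs (m v)).trans ?_
        have h1 : (1 + |s.im|) * (1 + |(m v : ℝ)|) ≤ (1 + |s.im| + ms m) ^ 2 := by
          rw [sq]
          have := hms v
          have := abs_nonneg (m v : ℝ)
          exact mul_le_mul (by linarith) (by linarith) (by linarith) (by linarith)
        calc 2 * G0 ^ 2 * ((64 / 9) * (2 * π)) * (1 + |s.im|) * (1 + |(m v : ℝ)|) *
              ‖gg (m v) s‖ = 2 * G0 ^ 2 * ((64 / 9) * (2 * π)) *
                ((1 + |s.im|) * (1 + |(m v : ℝ)|)) * ‖gg (m v) s‖ := by ring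
          _ ≤ _ := by gcongr
    _ = _ := by
        rw [Finset.prod_mul_distrib, Finset.prod_const, Finset.card_univ, mul_pow, ← pow_mul]

end Pool.Agent.H78.CMC
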