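import Pool.Agent.H23.CMC.Targets
import Pool.Agent.H66.CM4.MUL

/-!
# MP_52e316_nt, board `cm4_modules`: row G_MUL, the coefficients are multiplicative
-/

set_option autoImplicit false

open NumberField MeasureTheory Set Filter Complex
open scoped nonZeroDivisors Real
open Pool.Agent.H23.CMC
open Pool.Agent.H65.CM4 (Sq nm dg Pl rv)
open Pool.Agent.H65.CMC (Emb ty PrTo IsHk ms IsLk gg GM cG Km Idx cdc Fmc lc)
open Pool.Agent.H23.CM4 (nJ Jd Nr wB)
open Pool.Agent.H23.LC (HG ag)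
open Pool.Agent.H66.CM4 (MM MUL_le MUL_recov MUL_split)

namespace Pool.Agent.H78.CMC

theorem pf_MUL (hLCN : T_LCN) (oJDM : Pool.Agent.H23.CM4.T_JDM) : T_MULc := by
  intro k _ _ K _ _ _ ψ h1 hmul
  obtain ⟨-, -, -, -, j5⟩ := oJDM k
  have mem : ∀ (I : Ideal (𝓞 k)) (J : (Ideal (𝓞 K))⁰),
      J ∈ Nr k K I ↔ Ideal.relNorm (𝓞 k) (J : Ideal (𝓞 K)) = I := fun I J => j5 K I J
  constructor
  · have h : Nr k K (⊤ : Ideal (𝓞 k)) = {1} := by
      ext J
      rw [mem, Finset.mem_singleton]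
      constructor
      · intro h
        apply Subtype.ext
        have h1 := MUL_le (k := k) (J : Ideal (𝓞 K))
        rw [h, MM, Ideal.map_top, top_le_iff] at h1
        rw [h1]
        exact Ideal.one_eq_top.symm
      · intro h
        rw [h]
        have h1 : ((1 : (Ideal (𝓞 K))⁰) : Ideal (𝓞 K)) = ⊤ := Ideal.one_eq_top
        rw [h1, Ideal.relNorm_top]
    have h2 : ((1 : (Ideal (𝓞 K))⁰) : Ideal (𝓞 K)) = ⊤ := Ideal.one_eq_top
    rw [hLCN, h, Finset.sum_singleton]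
    change ψ ((1 : (Ideal (𝓞 K))⁰) : Ideal (𝓞 K)) = 1
    rw [h2, h1]
  · intro I I' hI hI' h
    rw [hLCN, hLCN, hLCN]
    rw [Finset.sum_mul_sum, ← Finset.sum_product']
    symm
    refine Finset.sum_nbij (fun p => p.1 * p.2) ?_ ?_ ?_ ?_
    · rintro ⟨A, B⟩ hp
      obtain ⟨hA, hB⟩ := Finset.mem_product.1 hp
      rw [mem] at hA hB ⊢
      show Ideal.relNorm (𝓞 k) ((A : Ideal (𝓞 K)) * (B : Ideal (𝓞 K))) = I * I'
      rw [map_mul]
      exact congrArg₂ _ hA hB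
    · rintro ⟨A, B⟩ hp ⟨A', B'⟩ hp' he
      obtain ⟨hA, hB⟩ := Finset.mem_product.1 (Finset.mem_coe.1 hp)
      obtain ⟨hA', hB'⟩ := Finset.mem_product.1 (Finset.mem_coe.1 hp')
      rw [mem] at hA hB hA' hB'
      have he' : (A : Ideal (𝓞 K)) * (B : Ideal (𝓞 K)) =
          (A' : Ideal (𝓞 K)) * (B' : Ideal (𝓞 K)) := congrArg Subtype.val he
      have h' : I' ⊔ I = ⊤ := by rw [sup_comm]; exact h
      have e1 : (A : Ideal (𝓞 K)) = A' := by
        rw [MUL_recov h hA hB, he', ← MUL_recov h hA' hB']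
      have e2 : (B : Ideal (𝓞 K)) = B' := by
        rw [MUL_recov h' hB hA, mul_comm (B : Ideal (𝓞 K)), he', mul_comm (A' : Ideal (𝓞 K)),
          ← MUL_recov h' hB' hA']
      exact Prod.ext (Subtype.ext e1) (Subtype.ext e2)
    · intro E hE
      rw [Finset.mem_coe, mem] at hE
      obtain ⟨h1, h2, h3⟩ := MUL_split h hI hE
      have n1 : (E : Ideal (𝓞 K)) ⊔ MM K I ∈ (Ideal (𝓞 K))⁰ := by
        rw [mem_nonZeroDivisors_iff_ne_zero]
        intro h0
        rw [h0] at h2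
        exact hI (by rw [← h2]; exact Ideal.relNorm_bot _)
      have n2 : (E : Ideal (𝓞 K)) ⊔ MM K I' ∈ (Ideal (𝓞 K))⁰ := by
        rw [mem_nonZeroDivisors_iff_ne_zero]
        intro h0
        rw [h0] at h3
        exact hI' (by rw [← h3]; exact Ideal.relNorm_bot _)
      refine ⟨(⟨_, n1⟩, ⟨_, n2⟩), ?_, Subtype.ext h1⟩
      exact Finset.mem_coe.2 (Finset.mem_product.2 ⟨(mem _ _).2 h2, (mem _ _).2 h3⟩)
    · rintro ⟨A, B⟩ _
      exact (hmul (A : Ideal (𝓞 K)) (B : Ideal (𝓞 K))).symm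

end Pool.Agent.H78.CMC
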